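import Pool.Agent.R291.StabReal

/-!
There is a finitely generated group of piecewise continuous permutations of the circle, modulo
finitely supported permutations, which is stably realizable and not realizable.
-/

namespace Pool.Agent.Results.MP_e3ce59_an.StableNotRealizable

open Pool.Agent.R291

theorem result : ∃ Γ : Subgroup (NearPerm S1),
    SubPC Γ ∧ Γ.FG ∧ StablyRealizable Γ ∧ ¬ Realizable Γ := by
  obtain ⟨α, h0, hα⟩ := exists_scale
  refine ⟨GG α, GG_subPC α, GG_fg α, GG_stably hα, ?_⟩
  rintro ⟨Λ, _, hΛ⟩
  exact GG_not_realizable h0 hΛ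

end Pool.Agent.Results.MP_e3ce59_an.StableNotRealizable
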